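import Pool.Agent.Helper81_LoadPoly.Hard

/-!
The loading problem for the three-neuron network with two standard sigmoid hidden units and a
threshold output unit is NP-hard under polynomial-time many-one reductions: every language in NP
is polynomial-time reducible to it (polynomial time in the sense of Mathlib's
`Turing.TM2ComputableInPolyTime`).
-/

namespace Pool.Agent.Results.MP_52a6f5_lc.LoadingNPHard

open Pool.Agent.Helper81_LoadPoly

theorem result : NPHard loadingProblem := loading_hard

end Pool.Agent.Results.MP_52a6f5_lc.LoadingNPHard
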